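import Pool.Agent.H4.SE.Targets

set_option autoImplicit false

namespace Pool.Agent.H91.SE4.GWm

open Finset Pool.Agent.H4.SE

theorem pf_GW : T_GW := by
  intro r T K φ h0 h1 hk
  have key : ∀ k, k ≤ T.length → (φ k)⁻¹ * FreeGroup.mk (T.take k).reverse ∈ K := by
    intro k
    induction k with
    | zero =>
      intro _
      rw [h0]
      have : (FreeGroup.mk (List.take 0 T).reverse : FreeGroup (Fin r)) = 1 := by
        simp [FreeGroup.one_eq_mk]
      rw [this]
      simpa using K.one_mem
    | succ k ih =>
      intro hle
      have hlt : k < T.length := hle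
      have hx : T[k]? = some T[k] := List.getElem?_eq_getElem hlt
      have h2 := hk k T[k] hx
      have h3 := ih (le_of_lt hlt)
      have e : (FreeGroup.mk (T.take (k + 1)).reverse : FreeGroup (Fin r)) =
          FreeGroup.mk [T[k]] * FreeGroup.mk (T.take k).reverse := by
        rw [List.take_succ_eq_append_getElem hlt, List.reverse_append, FreeGroup.mul_mk]
        rfl
      have h4 := K.mul_mem h2 h3
      rw [e]
      convert h4 using 1
      group
  have h2 := key T.length le_rfl
  rw [h1, List.take_length] at h2
  simpa using h2

end Pool.Agent.H91.SE4.GWm
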