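import Pool.Agent.H4.SE.Targets

set_option autoImplicit false

namespace Pool.Agent.H91.SE4.PUm

open Finset Pool.Agent.H4.SE

theorem pf_PU : T_PU := by
  intro α _ ρ V hsub S
  induction S using Finset.induction_on with
  | empty =>
    intro _ _ X _
    simp
  | insert Q S' hQ ih =>
    intro hS hdis X hX
    have hS' : ∀ Y ∈ S', Y ⊆ V := fun Y hY => hS Y (mem_insert_of_mem hY)
    have hdis' : ∀ Y ∈ S', ∀ Z ∈ S', Y ≠ Z → Disjoint Y Z := fun Y hY Z hZ =>
      hdis Y (mem_insert_of_mem hY) Z (mem_insert_of_mem hZ)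
    have h1 := ih hS' hdis' X hX
    have hU : S'.biUnion id ⊆ V := by
      intro a ha
      rw [mem_biUnion] at ha
      obtain ⟨Y, hY, ha⟩ := ha
      exact hS' Y hY ha
    have h2 := hsub (X ∪ S'.biUnion id) Q (union_subset hX hU) (hS Q (mem_insert_self _ _))
    have e1 : (X ∪ S'.biUnion id) ∩ Q = X ∩ Q := by
      ext a
      simp only [mem_inter, mem_union, mem_biUnion, id]
      constructor
      · rintro ⟨h | ⟨Y, hY, ha⟩, hq⟩
        · exact ⟨h, hq⟩
        · exfalso
          have hne : Y ≠ Q := fun h => hQ (h ▸ hY)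
          have hd := hdis Y (mem_insert_of_mem hY) Q (mem_insert_self _ _) hne
          exact (Finset.disjoint_left.mp hd) ha hq
      · rintro ⟨h, hq⟩
        exact ⟨Or.inl h, hq⟩
    have e2 : X ∪ (insert Q S').biUnion id = (X ∪ S'.biUnion id) ∪ Q := by
      ext a
      simp only [mem_union, mem_biUnion, id, mem_insert]
      constructor
      · rintro (h | ⟨Y, hY | hY, ha⟩)
        · exact Or.inl (Or.inl h)
        · exact Or.inr (hY ▸ ha)
        · exact Or.inl (Or.inr ⟨Y, hY, ha⟩)
      · rintro ((h | ⟨Y, hY, ha⟩) | h)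
        · exact Or.inl h
        · exact Or.inr ⟨Y, Or.inr hY, ha⟩
        · exact Or.inr ⟨Q, Or.inl rfl, h⟩
    rw [e1] at h2
    rw [e2, sum_insert hQ, sum_insert hQ]
    linarith

end Pool.Agent.H91.SE4.PUm
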